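import Pool.Agent.OPH.StmtsB

/-! Row ORD of squad OPH: reordering a list of ratios with small partial sums. -/

set_option autoImplicit false

namespace Pool.Agent.OPH.H28

open Finset Pool.Agent.OPG

theorem lsum_nil : lsum [] = 0 := by simp [lsum]

theorem lsum_cons (x : ℕ × ℕ) (L : List (ℕ × ℕ)) :
    lsum (x :: L) = (Real.log x.1 - Real.log x.2) + lsum L := by simp [lsum]

theorem lsum_perm {L L' : List (ℕ × ℕ)} (h : L.Perm L') : lsum L = lsum L' := by
  unfold lsum
  exact (h.map _).sum_eq

theorem lsum_append (L L' : List (ℕ × ℕ)) : lsum (L ++ L') = lsum L + lsum L' := by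
  simp [lsum]

theorem lsum_nonneg (L : List (ℕ × ℕ)) (h : ∀ x ∈ L, 0 ≤ Real.log x.1 - Real.log x.2) :
    0 ≤ lsum L := by
  induction L with
  | nil => rw [lsum_nil]
  | cons x L ih =>
    rw [lsum_cons]
    have h1 := h x (by simp)
    have h2 := ih fun y hy => h y (by simp [hy])
    linarith

theorem lsum_nonpos (L : List (ℕ × ℕ)) (h : ∀ x ∈ L, Real.log x.1 - Real.log x.2 ≤ 0) :
    lsum L ≤ 0 := by
  induction L with
  | nil => rw [lsum_nil]
  | cons x L ih =>
    rw [lsum_cons]
    have h1 := h x (by simp)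
    have h2 := ih fun y hy => h y (by simp [hy])
    linarith

theorem ord_aux (X : ℝ) (hX : 0 ≤ X) (k : ℕ) : ∀ (L : List (ℕ × ℕ)) (s : ℝ), L.length = k →
    |s| ≤ X → (∀ x ∈ L, |Real.log x.1 - Real.log x.2| ≤ X) →
    ∃ L' : List (ℕ × ℕ), L'.Perm L ∧ ∀ n, |s + lsum (L'.take n)| ≤ X + |s + lsum L| := by
  induction k with
  | zero =>
    intro L s hL hs _
    have h0 : L = [] := List.length_eq_zero_iff.1 hL
    subst h0
    refine ⟨[], List.Perm.refl _, fun n => ?_⟩
    rw [List.take_nil]
    linarith
  | succ k ih =>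
    intro L s hL hs hv
    have key : ∀ x ∈ L, |s + (Real.log x.1 - Real.log x.2)| ≤ X →
        ∃ L' : List (ℕ × ℕ), L'.Perm L ∧ ∀ n, |s + lsum (L'.take n)| ≤ X + |s + lsum L| := by
      intro x hx hsx
      have hlen : (L.erase x).length = k := by
        rw [List.length_erase_of_mem hx, hL, Nat.add_sub_cancel]
      obtain ⟨L', hp, hb⟩ := ih (L.erase x) (s + (Real.log x.1 - Real.log x.2)) hlen hsx
        (fun y hy => hv y (List.mem_of_mem_erase hy))
      have hperm : L.Perm (x :: L.erase x) := List.perm_cons_erase hx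
      have hsum : lsum L = (Real.log x.1 - Real.log x.2) + lsum (L.erase x) := by
        rw [lsum_perm hperm, lsum_cons]
      refine ⟨x :: L', (hp.cons x).trans hperm.symm, fun n => ?_⟩
      rcases n with _ | n
      · rw [List.take_zero, lsum_nil, add_zero]
        have := abs_nonneg (s + lsum L)
        linarith
      · rw [List.take_succ_cons, lsum_cons, hsum, ← add_assoc, ← add_assoc]
        exact hb n
    have hcat : ∀ n, lsum L = lsum (L.take n) + lsum (L.drop n) := by
      intro n
      rw [← lsum_append, List.take_append_drop]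
    have hs' := abs_le.1 hs
    rcases le_or_gt s 0 with h0 | h0
    · by_cases h : ∃ x ∈ L, 0 ≤ Real.log x.1 - Real.log x.2
      · obtain ⟨x, hx, hx0⟩ := h
        have h1 := abs_le.1 (hv x hx)
        exact key x hx (abs_le.2 ⟨by linarith [hs'.1], by linarith [h1.2]⟩)
      · push Not at h
        refine ⟨L, List.Perm.refl _, fun n => ?_⟩
        have h1 := lsum_nonpos (L.take n) fun x hx => (h x (List.mem_of_mem_take hx)).le
        have h2 := lsum_nonpos (L.drop n) fun x hx => (h x (List.mem_of_mem_drop hx)).le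
        have h3 := hcat n
        rw [abs_of_nonpos (by linarith), abs_of_nonpos (by linarith)]
        linarith
    · by_cases h : ∃ x ∈ L, Real.log x.1 - Real.log x.2 ≤ 0
      · obtain ⟨x, hx, hx0⟩ := h
        have h1 := abs_le.1 (hv x hx)
        exact key x hx (abs_le.2 ⟨by linarith [h1.1], by linarith [hs'.2]⟩)
      · push Not at h
        refine ⟨L, List.Perm.refl _, fun n => ?_⟩
        have h1 := lsum_nonneg (L.take n) fun x hx => (h x (List.mem_of_mem_take hx)).le
        have h2 := lsum_nonneg (L.drop n) fun x hx => (h x (List.mem_of_mem_drop hx)).le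
        have h3 := hcat n
        rw [abs_of_nonneg (by linarith), abs_of_nonneg (by linarith)]
        linarith

theorem ord : OrdStmt := by
  intro L X hX hL
  obtain ⟨L', h1, h2⟩ := ord_aux X hX L.length L 0 rfl (by rw [abs_zero]; exact hX) hL
  refine ⟨L', h1, fun n => ?_⟩
  have := h2 n
  rwa [zero_add, zero_add] at this

end Pool.Agent.OPH.H28
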